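import Pool.Agent.T2H62.ChY

/-!
# Chen's theorem for Cunningham chains of the second kind of exact length, with progressions

`c_h(n) = 2 ^ h (n - 1) + 1`. Let `J` be a finite set of places (`J = {0, ..., k - 1}` for chains of exact length `k`,
`J = {1, ..., k}` for complete chains), `i ≠ j` in `J` and `L` a bound. A positive proportion of the expected number of
the `n` has the following property: `c_i(n)` is a prime, `c_j(n)` is a product of at most two large primes, all
`c_h(n)`, `h ∈ J`, are products of at most `t` large primes, all other `c_h(n)`, `h ≤ L`, are composite. For every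
colouring almost all of these `n` are covered by disjoint monochromatic progressions of `s` such `n` with differences
at most a power of `log X`.
-/

set_option autoImplicit false

namespace Pool.Agent.Results.MP_39b545_nt.ChenExactChains

open Finset

/-- the term `c_h(n) = 2 ^ h (n - 1) + 1` of the Cunningham sequence of the second kind which starts with `n` -/
def c (h n : ℕ) : ℕ := 2 ^ h * (n - 1) + 1

/-- `v > 1` is a product of at most `r` primes, all of them larger than `y` -/
def AlmostPrime (r : ℕ) (y : ℝ) (v : ℕ) : Prop :=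
  1 < v ∧ v.primeFactorsList.length ≤ r ∧ ∀ q : ℕ, q.Prime → q ∣ v → y < q

variable {k : ℕ}

/-- the number of the residue classes `x` modulo `p` for which `p` divides one of the `c_h(x)`, `h` one of the places
`pos 0, ..., pos (k - 1)` -/
def omega (pos : Fin k → ℕ) (p : ℕ) : ℕ := ((Icc 1 p).filter (fun x : ℕ => p ∣ ∏ l, c (pos l) x)).card

/-- the product of `1 - ω(p) / p` over the primes `p ≤ X` -/
noncomputable def V (pos : Fin k → ℕ) (X : ℕ) : ℝ := ∏ p ∈ (Icc 1 X).filter Nat.Prime, (1 - (omega pos p : ℝ) / p)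

open Classical in
/-- the `n` in `(A, B]` such that `c (pos i) n` is a prime, `c (pos j) n` is a product of at most two primes
`> X ^ (1/9)`, all `c (pos l) n` are products of at most `t` primes `> X ^ (1/t)`, and the `c h n` with `h ≤ L`
different from all `pos l` are not prime -/
noncomputable def Good (pos : Fin k → ℕ) (i j : Fin k) (L t X A B : ℕ) : Finset ℕ :=
  (Ioc A B).filter (fun n : ℕ => (c (pos i) n).Prime ∧ AlmostPrime 2 ((X : ℝ) ^ (1 / 9 : ℝ)) (c (pos j) n) ∧
    (∀ l, AlmostPrime t ((X : ℝ) ^ (1 / (t : ℝ))) (c (pos l) n)) ∧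
    ∀ h : ℕ, h ≤ L → (∀ l, pos l ≠ h) → ¬ (c h n).Prime)

/-- the terms `a, a + d, ..., a + (s - 1) d` of the progression `z = (a, d)` -/
def terms (s : ℕ) (z : ℕ × ℕ) : Finset ℕ := (range s).image (fun i => z.1 + i * z.2)

theorem result (pos : Fin k → ℕ) (hpos : Function.Injective pos) (i j : Fin k) (hij : i ≠ j) (L : ℕ) :
    ∃ t : ℕ, 1 ≤ t ∧ ∃ κ : ℝ, 0 < κ ∧ ∀ (s r : ℕ) (θ δ : ℝ), 1 ≤ s → 0 < θ → 0 < δ → ∃ b X₀ : ℕ, ∀ X : ℕ, X₀ ≤ X →
      κ / Real.log X ^ k ≤ V pos X ∧ ∀ A B : ℕ, B ≤ X → θ * X ≤ (B : ℝ) - A →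
        κ * ((B : ℝ) - A) * V pos X ≤ ((Good pos i j L t X A B).card : ℝ) ∧
        ∀ χ : ℕ → Fin r, ∃ P : Finset (ℕ × ℕ),
          (∀ z ∈ P, 1 ≤ z.2 ∧ (z.2 : ℝ) ≤ Real.log X ^ b ∧
            ∀ l < s, z.1 + l * z.2 ∈ Good pos i j L t X A B ∧ χ (z.1 + l * z.2) = χ z.1) ∧
          (P : Set (ℕ × ℕ)).PairwiseDisjoint (terms s) ∧
          (((Good pos i j L t X A B \ P.biUnion (terms s)).card : ℕ) : ℝ) ≤ δ * ((B : ℝ) - A) * V pos X :=
  Pool.Agent.T2H62.ChX.chenC (u := -1) (Or.inr rfl) (c := c) (fun h n hn => by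
    unfold c Pool.Agent.T2H62.ChX.cz
    push_cast
    rw [Nat.cast_sub hn]
    push_cast
    ring) pos hpos i j hij L

end Pool.Agent.Results.MP_39b545_nt.ChenExactChains
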