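import Mathlib
import Pool.Agent.T2H62.ML.G

set_option autoImplicit false

/-! # Second-kind chains of every exact length for sieved random primes

Random primes: every integer `n` without a prime factor `p ≤ A log n` is chosen with probability
`∏_{p ≤ A log n} (1 - 1/p)⁻¹ / log n` (at most `1`), the other integers are not chosen, and the choices are independent
(`A = 1`: Granville's modification of Cramer's model). Almost surely, for every `k ≥ 1` the number of the `p`,
`p - 1 ∈ (N, M]`, which start a second-kind chain of random primes of exact length `k` follows the asymptotic formula of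
Hardy and Littlewood, uniformly for `N + N ^ ε ≤ M ≤ 2 N`; moreover, all the exact lengths from `1` to
`(1 - ε) log N / log log N` occur for some `p`, `p - 1 ∈ (N, 2 N]`, and no length `≥ (1 + ε) log N / log log N`. -/

namespace Pool.Agent.Results.MP_39b545_nt.SievedRandomChains

open Finset Filter Topology MeasureTheory ProbabilityTheory

open scoped Classical in
/-- the probability that `n` is a random prime -/
noncomputable def prob (A : ℝ) (n : ℕ) : ℝ :=
  if ∀ p : ℕ, p.Prime → (p : ℝ) ≤ A * Real.log n → ¬ p ∣ n then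
    min 1 ((∏ p ∈ (Icc 1 ⌊A * Real.log n⌋₊).filter Nat.Prime, (1 - (p : ℝ)⁻¹)⁻¹) / Real.log n) else 0

/-- the events `S n` (`n` is a random prime) are independent with the probabilities `prob A n` -/
def Model (A : ℝ) {Ω : Type*} [MeasurableSpace Ω] (μ : Measure Ω) (S : ℕ → Set Ω) : Prop :=
  IsProbabilityMeasure μ ∧ (∀ n, MeasurableSet (S n)) ∧ iIndepSet S μ ∧
    ∀ n, μ (S n) = ENNReal.ofReal (prob A n)

/-- the term `a_j = 2 ^ j (p - 1) + 1` of the second-kind sequence starting at `p` -/
def term (p j : ℕ) : ℕ := 2 ^ j * (p - 1) + 1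

/-- `a_0, ..., a_(k-1)` belong to `R` -/
def Starts (R : Set ℕ) (k p : ℕ) : Prop := ∀ j < k, term p j ∈ R

/-- `p` starts a chain of exact length `k` in `R` -/
def StartsExact (R : Set ℕ) (k p : ℕ) : Prop := Starts R k p ∧ term p k ∉ R

open scoped Classical in
/-- the number of the `p`, `p - 1 ∈ (N, M]`, which start a chain of exact length `k` in `R` -/
noncomputable def exactCount (R : Set ℕ) (k N M : ℕ) : ℕ :=
  ((Ioc (N + 1) (M + 1)).filter (fun p => StartsExact R k p)).card

open scoped Classical in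
/-- the number of the `n` modulo `l` such that `l` divides `2 ^ j n + 1` for a `j < k` -/
noncomputable def classes (k l : ℕ) : ℕ := ((range l).filter (fun n => ∃ j < k, l ∣ 2 ^ j * n + 1)).card

/-- the partial product of the singular series of the chains of length `k` -/
noncomputable def singular (k z : ℕ) : ℝ :=
  ∏ l ∈ (Icc 1 z).filter Nat.Prime, (1 - (classes k l : ℝ) / l) * ((1 - (l : ℝ)⁻¹)⁻¹) ^ k

theorem result (A : ℝ) (hA : 0 < A) :
    -- the model exists
    (∃ (μ : Measure (ℕ → Bool)) (S : ℕ → Set (ℕ → Bool)), Model A μ S) ∧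
    ∀ (Ω : Type) [MeasurableSpace Ω] (μ : Measure Ω) (S : ℕ → Set Ω), Model A μ S →
      ∀ᵐ ω ∂μ,
        -- the asymptotic formula for every exact length, in all short intervals
        (∀ k : ℕ, 1 ≤ k → ∃ s : ℝ, 0 < s ∧ Tendsto (singular k) atTop (𝓝 s) ∧
            ∀ ε δ : ℝ, 0 < ε → 0 < δ → ∀ᶠ N : ℕ in atTop, ∀ M : ℕ, (N : ℝ) + (N : ℝ) ^ ε ≤ M → M ≤ 2 * N →
              |(exactCount {n | ω ∈ S n} k N M : ℝ) - s * (((M : ℝ) - N) / Real.log N ^ k)| ≤
                δ * (((M : ℝ) - N) / Real.log N ^ k)) ∧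
        -- the exact lengths which occur in dyadic intervals
        ∀ ε : ℝ, 0 < ε → ε ≤ 1 → ∀ᶠ N : ℕ in atTop,
          (∀ k : ℕ, 1 ≤ k → (k : ℝ) * Real.log (Real.log N) ≤ (1 - ε) * Real.log N →
            ∃ p : ℕ, p - 1 ∈ Ioc N (2 * N) ∧ StartsExact {n | ω ∈ S n} k p) ∧
          ∀ k : ℕ, (1 + ε) * Real.log N ≤ (k : ℝ) * Real.log (Real.log N) →
            ∀ p : ℕ, p - 1 ∈ Ioc N (2 * N) → ¬ Starts {n | ω ∈ S n} k p := by
  classical
  have hprob : ∀ n, prob A n = Pool.Agent.T2H53.GW.pr A n := fun n => rfl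
  refine ⟨?_, ?_⟩
  · obtain ⟨μ, S, h1, h2, h3, h4⟩ := Pool.Agent.T2H53.GW.exists_model (prob A)
      (fun n => by rw [hprob]; exact Pool.Agent.T2H53.GW.pr_nonneg A n)
      (fun n => by rw [hprob]; exact Pool.Agent.T2H53.GW.pr_le_one A n)
    exact ⟨μ, S, h1, h2, h3, h4⟩
  · rintro Ω _ μ S ⟨hμ, hm, hi, hp⟩
    have hp' : ∀ n, μ.real (S n) = Pool.Agent.T2H53.GW.pr A n := fun n => by
      rw [measureReal_def, hp n, ENNReal.toReal_ofReal (by rw [hprob]; exact Pool.Agent.T2H53.GW.pr_nonneg A n), hprob]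
    -- the counts of the chains
    have hHL : ∀ k : ℕ, ∃ s : ℝ, 0 < s ∧ Tendsto (singular k) atTop (𝓝 s) ∧
        ∀ᵐ ω ∂μ, ∀ ε δ : ℝ, 0 < ε → 0 < δ → ∀ᶠ N : ℕ in atTop, ∀ M : ℕ, (N : ℝ) + (N : ℝ) ^ ε ≤ M → M ≤ 2 * N →
          |Pool.Agent.T2H62.MD.cnt (Ioc N M) (Pool.Agent.T2H62.ML.Ff S (Pool.Agent.T2H62.ML.FC k)) ω -
            s * (((M : ℝ) - N) / Real.log N ^ k)| ≤ δ * (((M : ℝ) - N) / Real.log N ^ k) := by
      intro k
      obtain ⟨s, h1, h2, h3⟩ := Pool.Agent.T2H62.ML.HL_system A hA hm hi hp' (Pool.Agent.T2H62.ML.FC_nondeg k)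
        (Pool.Agent.T2H62.ML.FC_sep k) (fun p hp => Pool.Agent.T2H62.ML.FC_adm k hp)
      rw [Pool.Agent.T2H62.ML.FC_card] at h2 h3
      refine ⟨s, h1, ?_, h3⟩
      have h4 : singular k = Pool.Agent.T2H62.ML.SSg (fun p => (Pool.Agent.T2H62.ML.XF (Pool.Agent.T2H62.ML.FC k) p).card) k := by
        funext z
        unfold singular Pool.Agent.T2H62.ML.SSg Pool.Agent.T2H62.MD.PJ
        refine prod_congr rfl fun l _ => ?_
        have h5 : classes k l = (Pool.Agent.T2H62.ML.XF (Pool.Agent.T2H62.ML.FC k) l).card := by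
          unfold classes Pool.Agent.T2H62.ML.XF
          congr 1
          apply filter_congr
          intro n _
          constructor
          · rintro ⟨j, hj, hd⟩
            exact ⟨(2 ^ j, 1), Pool.Agent.T2H62.ML.mem_FC.2 ⟨j, hj, rfl⟩, hd⟩
          · rintro ⟨f, hf, hd⟩
            obtain ⟨j, hj, rfl⟩ := Pool.Agent.T2H62.ML.mem_FC.1 hf
            exact ⟨j, hj, hd⟩
        rw [h5]
      rw [h4]
      exact h2
    choose s hs0 hs hHL using hHL
    have hex : ∀ᵐ ω ∂μ, ∀ i : ℕ, ∀ᶠ N : ℕ in atTop, ∀ K : ℕ, 1 ≤ K →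
        (K : ℝ) * Real.log (Real.log N) ≤ (1 - 1 / ((i : ℝ) + 1)) * Real.log N →
        ∃ n ∈ Ioc N (2 * N), (∀ j < K, ω ∈ S (2 ^ j * n + 1)) ∧ ω ∉ S (2 ^ K * n + 1) := by
      rw [ae_all_iff]
      intro i
      exact Pool.Agent.T2H62.ML.exact_exist A hA hm hi hp' (1 / ((i : ℝ) + 1)) (by positivity) (by
        rw [div_le_one (by positivity)]
        have : (0 : ℝ) ≤ i := Nat.cast_nonneg _
        linarith)
    have hno : ∀ᵐ ω ∂μ, ∀ i : ℕ, ∀ᶠ n : ℕ in atTop, ∀ K : ℕ,
        (1 + 1 / ((i : ℝ) + 1)) * Real.log n ≤ (K : ℝ) * Real.log (Real.log n) → ∃ j < K, ω ∉ S (2 ^ j * n + 1) := by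
      rw [ae_all_iff]
      intro i
      exact Pool.Agent.T2H62.ML.long_none A hA hm hi hp' (1 / ((i : ℝ) + 1)) (by positivity) (by
        rw [div_le_one (by positivity)]
        have : (0 : ℝ) ≤ i := Nat.cast_nonneg _
        linarith)
    filter_upwards [ae_all_iff.2 hHL, hex, hno] with ω hω hexω hnoω
    have hTn : Tendsto (fun n : ℕ => (n : ℝ)) atTop atTop := tendsto_natCast_atTop_atTop
    have hL : Tendsto (fun n : ℕ => Real.log (n : ℝ)) atTop atTop := Real.tendsto_log_atTop.comp hTn
    have hL2 : Tendsto (fun n : ℕ => Real.log (Real.log (n : ℝ))) atTop atTop := Real.tendsto_log_atTop.comp hL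
    refine ⟨fun k _ => ⟨s k, hs0 k, hs k, fun ε δ hε hδ => ?_⟩, fun ε hε hε1 => ?_⟩
    · -- exact lengths are differences
      have hcnt : ∀ N M : ℕ, (exactCount {n | ω ∈ S n} k N M : ℝ) =
          Pool.Agent.T2H62.MD.cnt (Ioc N M) (Pool.Agent.T2H62.ML.Ff S (Pool.Agent.T2H62.ML.FC k)) ω -
          Pool.Agent.T2H62.MD.cnt (Ioc N M) (Pool.Agent.T2H62.ML.Ff S (Pool.Agent.T2H62.ML.FC (k + 1))) ω := by
        intro N M
        rw [Pool.Agent.T2H62.MD.cnt_eq, Pool.Agent.T2H62.MD.cnt_eq]
        have hmem : ∀ (K n : ℕ), ω ∈ Pool.Agent.T2H62.ML.Ff S (Pool.Agent.T2H62.ML.FC K) n ↔ ∀ j < K, ω ∈ S (2 ^ j * n + 1) := by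
          intro K n
          unfold Pool.Agent.T2H62.ML.Ff
          simp only [Set.mem_iInter]
          constructor
          · intro h j hj
            exact h (2 ^ j, 1) (Pool.Agent.T2H62.ML.mem_FC.2 ⟨j, hj, rfl⟩)
          · intro h f hf
            obtain ⟨j, hj, rfl⟩ := Pool.Agent.T2H62.ML.mem_FC.1 hf
            exact h j hj
        have h1 : exactCount {n | ω ∈ S n} k N M = ((Ioc N M).filter (fun n => (∀ j < k, ω ∈ S (2 ^ j * n + 1)) ∧
            ω ∉ S (2 ^ k * n + 1))).card := by
          unfold exactCount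
          symm
          apply card_bij (fun n _ => n + 1)
          · intro n hn
            rw [mem_filter, mem_Ioc] at hn ⊢
            refine ⟨⟨by omega, by omega⟩, ?_, ?_⟩
            · intro j hj
              unfold term
              rw [Nat.add_sub_cancel]
              exact hn.2.1 j hj
            · unfold term
              rw [Nat.add_sub_cancel]
              exact hn.2.2
          · intro a _ b _ h
            omega
          · intro p hpm
            rw [mem_filter, mem_Ioc] at hpm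
            refine ⟨p - 1, ?_, by omega⟩
            rw [mem_filter, mem_Ioc]
            refine ⟨⟨by omega, by omega⟩, ?_, ?_⟩
            · intro j hj
              exact hpm.2.1 j hj
            · exact hpm.2.2
        have h2 : ((Ioc N M).filter (fun n => ω ∈ Pool.Agent.T2H62.ML.Ff S (Pool.Agent.T2H62.ML.FC k) n)).card =
            ((Ioc N M).filter (fun n => (∀ j < k, ω ∈ S (2 ^ j * n + 1)) ∧ ω ∉ S (2 ^ k * n + 1))).card +
            ((Ioc N M).filter (fun n => ω ∈ Pool.Agent.T2H62.ML.Ff S (Pool.Agent.T2H62.ML.FC (k + 1)) n)).card := by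
          rw [← card_union_of_disjoint]
          · congr 1
            ext n
            simp only [mem_filter, mem_union, hmem]
            constructor
            · rintro ⟨h3, h4⟩
              by_cases h5 : ω ∈ S (2 ^ k * n + 1)
              · right
                refine ⟨h3, fun j hj => ?_⟩
                rcases Nat.lt_or_ge j k with h6 | h6
                · exact h4 j h6
                · have : j = k := by omega
                  rw [this]; exact h5
              · left
                exact ⟨h3, h4, h5⟩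
            · rintro (⟨h3, h4, _⟩ | ⟨h3, h4⟩)
              · exact ⟨h3, h4⟩
              · exact ⟨h3, fun j hj => h4 j (by omega)⟩
          · rw [Finset.disjoint_left]
            intro n hn hn'
            simp only [mem_filter, hmem] at hn hn'
            exact hn.2.2 (hn'.2 k (by omega))
        rw [h1, h2]
        push_cast
        ring
      filter_upwards [hω k ε (δ / 2) hε (by positivity), hω (k + 1) ε 1 hε one_pos,
        hL.eventually_ge_atTop (2 * (s (k + 1) + 1) / δ + 1), eventually_ge_atTop 3] with N h1 h2 h3 h4 M hM1 hM2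
      have h5 := h1 M hM1 hM2
      have h6 := h2 M hM1 hM2
      rw [hcnt]
      have hN0 : (0 : ℝ) < N := by exact_mod_cast (by omega : 0 < N)
      have hNe : 0 < (N : ℝ) ^ ε := by positivity
      have hs1 := hs0 (k + 1)
      have hq : 0 < 2 * (s (k + 1) + 1) / δ := by positivity
      have hl0 : 0 < Real.log (N : ℝ) := by linarith
      obtain ⟨D, hD⟩ : ∃ D : ℝ, D = ((M : ℝ) - N) / Real.log N ^ k := ⟨_, rfl⟩
      have hD0 : 0 < D := by
        rw [hD]
        apply div_pos (by linarith) (by positivity)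
      have h7 : ((M : ℝ) - N) / Real.log N ^ (k + 1) = D / Real.log N := by
        rw [hD, pow_succ, div_div]
      rw [h7] at h6
      rw [← hD] at h5 ⊢
      have h8 : (s (k + 1) + 1) * (D / Real.log N) ≤ δ / 2 * D := by
        rw [mul_div_assoc', div_le_iff₀ hl0]
        have h9 : 2 * (s (k + 1) + 1) / δ ≤ Real.log N := by linarith
        rw [div_le_iff₀ hδ] at h9
        nlinarith
      have h9 : 0 ≤ Pool.Agent.T2H62.MD.cnt (Ioc N M) (Pool.Agent.T2H62.ML.Ff S (Pool.Agent.T2H62.ML.FC (k + 1))) ω :=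
        (Pool.Agent.T2H62.MD.cnt_le _ _ _).1
      have h10 := (abs_le.1 h6).2
      rw [abs_le] at h5 ⊢
      constructor <;> nlinarith [h5.1, h5.2]
    · -- the lengths
      obtain ⟨i, hi'⟩ := exists_nat_gt (2 / ε)
      have hi1 : 1 / ((i : ℝ) + 1) ≤ ε / 2 := by
        rw [div_le_iff₀ (by positivity)]
        rw [div_lt_iff₀ hε] at hi'
        nlinarith
      obtain ⟨n₀, hn₀⟩ := eventually_atTop.1 (hnoω i)
      filter_upwards [hexω i, eventually_ge_atTop n₀, hL.eventually_ge_atTop (4 / ε + 1), hL2.eventually_ge_atTop 0,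
        eventually_ge_atTop 3] with N h1 h2 h3 h3' h4
      have hN0 : (0 : ℝ) < N := by exact_mod_cast (by omega : 0 < N)
      have h4ε : 0 < 4 / ε := by positivity
      have hl0 : 0 < Real.log (N : ℝ) := by linarith
      constructor
      · intro k hk hk1
        obtain ⟨n, hn, h5, h6⟩ := h1 k hk (hk1.trans (mul_le_mul_of_nonneg_right (by linarith) hl0.le))
        refine ⟨n + 1, by rw [Nat.add_sub_cancel]; exact hn, fun j hj => ?_, ?_⟩
        · unfold term
          rw [Nat.add_sub_cancel]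
          exact h5 j hj
        · unfold term
          rw [Nat.add_sub_cancel]
          exact h6
      · intro k hk p hpm hst
        obtain ⟨h5, h6⟩ := mem_Ioc.1 hpm
        have hn0 : (0 : ℝ) < ((p - 1 : ℕ) : ℝ) := by exact_mod_cast (by omega : 0 < p - 1)
        have h7 : Real.log ((p - 1 : ℕ) : ℝ) ≤ Real.log N + 1 := by
          have h8 : Real.log ((p - 1 : ℕ) : ℝ) ≤ Real.log (2 * N) := Real.log_le_log hn0 (by exact_mod_cast h6)
          rw [Real.log_mul (by norm_num) hN0.ne'] at h8
          linarith [Real.log_two_lt_d9]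
        have h8 : Real.log (N : ℝ) ≤ Real.log ((p - 1 : ℕ) : ℝ) := Real.log_le_log hN0 (by exact_mod_cast h5.le)
        have h9 : Real.log (Real.log (N : ℝ)) ≤ Real.log (Real.log ((p - 1 : ℕ) : ℝ)) := Real.log_le_log hl0 h8
        obtain ⟨j, hj, hjn⟩ := hn₀ (p - 1) (by omega) k (by
          have h10 : (k : ℝ) * Real.log (Real.log N) ≤ (k : ℝ) * Real.log (Real.log ((p - 1 : ℕ) : ℝ)) :=
            mul_le_mul_of_nonneg_left h9 (Nat.cast_nonneg _)
          have h11 : (1 + 1 / ((i : ℝ) + 1)) * Real.log ((p - 1 : ℕ) : ℝ) ≤ (1 + ε / 2) * (Real.log N + 1) := by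
            apply mul_le_mul (by linarith) h7 (by linarith) (by positivity)
          have h12 : (1 + ε / 2) * (Real.log N + 1) ≤ (1 + ε) * Real.log N := by
            have h13 : 4 / ε ≤ Real.log N := by linarith
            rw [div_le_iff₀ hε] at h13
            nlinarith
          linarith)
        exact hjn (hst j hj)

end Pool.Agent.Results.MP_39b545_nt.SievedRandomChains
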